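import Mathlib

set_option autoImplicit false

namespace Pool.Agent.LibThreeAdic

/-- The alternating sum S_m(n) of the problem. -/
def S (m : ℤ) (n : ℕ) : ℚ :=
  ∑ k ∈ Finset.range n, (-1)^k * (Nat.choose (n-1) k : ℚ) * (Nat.choose (2*k) k : ℚ) * ((m:ℚ)^k)⁻¹

/-- The 3-adic valuation of a rational number, with value top (infinity) at 0. -/
def nu3 (x : ℚ) : WithTop ℤ := if x = 0 then ⊤ else ((padicValRat 3 x : ℤ) : WithTop ℤ)

end Pool.Agent.LibThreeAdic
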