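import Mathlib
import Pool.Agent.LibThreeAdic.Defs

set_option autoImplicit false

namespace Pool.Agent.LibThreeAdic

open Finset Polynomial

/-- central binomial coefficient as a rational number -/
def cb (k : ℕ) : ℚ := (Nat.centralBinom k : ℚ)

/-- Catalan number as a rational number -/
def cat (k : ℕ) : ℚ := cb k / (k + 1)

lemma cb_succ (k : ℕ) : cb (k+1) * (k+1) = 2 * (2*k+1) * cb k := by
  have h := Nat.succ_mul_centralBinom_succ k
  have h' : ((k:ℚ)+1) * (Nat.centralBinom (k+1) : ℚ) = 2 * (2 * k + 1) * (Nat.centralBinom k : ℚ) := by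
    exact_mod_cast h
  unfold cb; linarith

lemma cb_succ' (k : ℕ) : cb (k+1) = 2 * (2*k+1) * cb k / (k+1) := by
  have h : (k:ℚ) + 1 ≠ 0 := by positivity
  field_simp
  exact cb_succ k

lemma cb_zero : cb 0 = 1 := by simp [cb]

lemma cat_int (k : ℕ) : ∃ z : ℤ, cat k = z := by
  obtain ⟨c, hc⟩ := Nat.succ_dvd_centralBinom k
  refine ⟨c, ?_⟩
  have h : (k:ℚ) + 1 ≠ 0 := by positivity
  unfold cat cb
  rw [hc]
  push_cast
  field_simp

lemma cb_int (k : ℕ) : ∃ z : ℤ, cb k = z := ⟨(Nat.centralBinom k : ℤ), by simp [cb]⟩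

/-- the linear functional sending X^k to cb k -/
noncomputable def phi : ℚ[X] →ₗ[ℚ] ℚ := Polynomial.lsum (fun k => (cb k) • LinearMap.id)

lemma phi_monomial (k : ℕ) (c : ℚ) : phi (monomial k c) = cb k * c := by
  unfold phi
  rw [Polynomial.lsum_apply, Polynomial.sum_monomial_index]
  · simp
  · simp

lemma phi_X_pow (k : ℕ) : phi (X^k) = cb k := by
  rw [← Polynomial.monomial_one_right_eq_X_pow, phi_monomial, mul_one]

lemma choose_rec1 (a b : ℕ) : (Nat.choose (a+(b+1)) a : ℚ) = (Nat.choose (a+b) a : ℚ) * (a+b+1) / (b+1) := by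
  have h := Nat.choose_mul_succ_eq (a+b) a
  have h2 : a + b + 1 - a = b + 1 := by omega
  rw [h2] at h
  have h3 : ((Nat.choose (a+b) a : ℕ) : ℚ) * ((a:ℚ)+b+1) = (Nat.choose (a+b+1) a : ℚ) * (b+1) := by
    exact_mod_cast h
  have h4 : (b:ℚ) + 1 ≠ 0 := by positivity
  rw [show a + (b+1) = a + b + 1 by ring]
  field_simp
  linarith

lemma choose_rec2 (a b : ℕ) : (Nat.choose ((a+1)+b) (a+1) : ℚ) = (Nat.choose (a+b) a : ℚ) * (a+b+1) / (a+1) := by
  have h := Nat.add_one_mul_choose_eq (a+b) a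
  have h3 : ((a:ℚ)+b+1) * ((Nat.choose (a+b) a : ℕ) : ℚ) = (Nat.choose (a+b+1) (a+1) : ℚ) * (a+1) := by
    exact_mod_cast h
  have h4 : (a:ℚ) + 1 ≠ 0 := by positivity
  rw [show a + 1 + b = a + b + 1 by ring]
  field_simp
  linarith

lemma phi_ab (b : ℕ) : ∀ a : ℕ, phi (X^a * (4 - X)^b) = cb a * cb b / (Nat.choose (a+b) a : ℚ) := by
  induction b with
  | zero =>
    intro a
    simp [phi_X_pow, cb_zero]
  | succ b ih =>
    intro a
    have e : (X^a * (4 - X)^(b+1) : ℚ[X]) = (4:ℚ) • (X^a * (4 - X)^b) - X^(a+1) * (4 - X)^b := by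
      rw [Polynomial.smul_eq_C_mul]
      have : (C (4:ℚ) : ℚ[X]) = 4 := map_ofNat (C : ℚ →+* ℚ[X]) 4
      rw [this]
      ring
    rw [e, map_sub, map_smul, ih, ih, choose_rec1, choose_rec2, cb_succ', cb_succ']
    have h1 : (Nat.choose (a+b) a : ℚ) ≠ 0 := by
      have : 0 < Nat.choose (a+b) a := Nat.choose_pos (by omega)
      positivity
    have h2 : (a:ℚ) + b + 1 ≠ 0 := by positivity
    have h3 : (a:ℚ) + 1 ≠ 0 := by positivity
    have h4 : (b:ℚ) + 1 ≠ 0 := by positivity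
    simp only [smul_eq_mul]
    field_simp
    ring

theorem S_eq (m : ℤ) (hm : m ≠ 0) (N : ℕ) :
    4^N * S m (N+1) = ∑ i ∈ range (N+1), cb i * cb (N-i) * (1 - 4/(m:ℚ))^i := by
  have hm' : (m:ℚ) ≠ 0 := by exact_mod_cast hm
  set lam : ℚ := 1 - 4/(m:ℚ) with hlam
  have key1 : phi ((C lam * X + (4 - X))^N) = ∑ i ∈ range (N+1), cb i * cb (N-i) * lam^i := by
    rw [add_pow, map_sum]
    apply Finset.sum_congr rfl
    intro i hi
    have hi' : i ≤ N := by simpa [Nat.lt_succ_iff] using hi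
    have e : ((C lam * X)^i * (4 - X)^(N-i) * (Nat.choose N i : ℚ[X]) : ℚ[X])
        = (lam^i * (Nat.choose N i : ℚ)) • (X^i * (4-X)^(N-i)) := by
      rw [Polynomial.smul_eq_C_mul, mul_pow, ← C_pow]
      rw [C_mul]
      have : (C ((Nat.choose N i : ℕ) : ℚ) : ℚ[X]) = (Nat.choose N i : ℚ[X]) := by
        simp
      rw [this]
      ring
    rw [e, map_smul, phi_ab]
    have h5 : i + (N - i) = N := by omega
    rw [h5]
    have h1 : (Nat.choose N i : ℚ) ≠ 0 := by
      have : 0 < Nat.choose N i := Nat.choose_pos hi'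
      positivity
    simp only [smul_eq_mul]
    field_simp
  have key2 : phi ((C lam * X + (4 - X))^N) = 4^N * S m (N+1) := by
    have e0 : (C lam * X + (4 - X) : ℚ[X]) = C (-(4/(m:ℚ))) * X + C 4 := by
      rw [hlam]
      simp only [map_sub, map_neg, C_1]
      have : (C (4:ℚ) : ℚ[X]) = 4 := map_ofNat (C : ℚ →+* ℚ[X]) 4
      rw [this]
      ring
    rw [e0, add_pow, map_sum]
    unfold S
    rw [Finset.mul_sum]
    apply Finset.sum_congr rfl
    intro i hi
    have hi' : i ≤ N := by simpa [Nat.lt_succ_iff] using hi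
    have e : ((C (-(4/(m:ℚ))) * X)^i * (C 4)^(N-i) * (Nat.choose N i : ℚ[X]) : ℚ[X])
        = ((-(4/(m:ℚ)))^i * 4^(N-i) * (Nat.choose N i : ℚ)) • (X^i) := by
      rw [Polynomial.smul_eq_C_mul, mul_pow, ← C_pow, ← C_pow]
      rw [C_mul, C_mul]
      have : (C ((Nat.choose N i : ℕ) : ℚ) : ℚ[X]) = (Nat.choose N i : ℚ[X]) := by
        simp
      rw [this]
      ring
    rw [e, map_smul, phi_X_pow]
    have h6 : (4:ℚ)^N = 4^i * 4^(N-i) := by
      rw [← pow_add]; congr 1; omega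
    rw [h6, Nat.add_sub_cancel]
    unfold cb
    rw [Nat.centralBinom_eq_two_mul_choose]
    simp only [smul_eq_mul]
    rw [neg_pow, div_pow]
    field_simp
  rw [← key2, key1]

/-- the partial-sum identity -/
theorem cb_cb (i : ℕ) : ∀ j : ℕ, (2*(i:ℚ)+1) * (cb i * cb j)
    = ((i:ℚ)+j+1) * ∑ b ∈ range (i+1), cb b * cat (i+j-b) := by
  induction i with
  | zero =>
    intro j
    simp only [Nat.cast_zero, mul_zero, zero_add, one_mul, range_one, sum_singleton, cb_zero, tsub_zero]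
    unfold cat
    have h : (j:ℚ) + 1 ≠ 0 := by positivity
    field_simp
  | succ i ih =>
    intro j
    rw [Finset.sum_range_succ]
    have h1 := ih (j+1)
    have e : i + 1 + j = i + (j+1) := by ring
    rw [e]
    have e2 : i + (j+1) - (i+1) = j := by omega
    rw [e2]
    push_cast at h1 ⊢
    have h2 : ((i:ℚ) + (j + 1) + 1) * (∑ b ∈ range (i+1), cb b * cat (i + (j+1) - b)) =
      (2*(i:ℚ)+1) * (cb i * cb (j+1)) := by linarith
    have h3 : ((i:ℚ) + 1 + j + 1) * (∑ b ∈ range (i+1), cb b * cat (i + (j+1) - b) + cb (i+1) * cat j)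
       = (2*(i:ℚ)+1) * (cb i * cb (j+1)) + ((i:ℚ) + 1 + j + 1) * (cb (i+1) * cat j) := by
      rw [← h2]; ring
    rw [h3]
    unfold cat
    rw [cb_succ' i, cb_succ' j]
    have h : (j:ℚ) + 1 ≠ 0 := by positivity
    have h' : (i:ℚ) + 1 ≠ 0 := by positivity
    field_simp
    ring

end Pool.Agent.LibThreeAdic
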