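import Mathlib
import Pool.Agent.LibThreeAdic.Basic

set_option autoImplicit false

namespace Pool.Agent.LibThreeAdic

open Finset

/-- x is divisible by 3^k in the 3-adic sense -/
def V (k : ℤ) (x : ℚ) : Prop := padicNorm 3 x ≤ (3:ℚ)^(-k)

lemma V_zero (k : ℤ) : V k 0 := by
  unfold V; simp; positivity

lemma V.mono {k l : ℤ} {x : ℚ} (h : V k x) (hl : l ≤ k) : V l x := by
  unfold V at *
  refine h.trans ?_
  exact zpow_le_zpow_right₀ (by norm_num) (by omega)

lemma V.add {k : ℤ} {x y : ℚ} (hx : V k x) (hy : V k y) : V k (x + y) := by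
  unfold V at *
  exact (padicNorm.nonarchimedean).trans (max_le hx hy)

lemma V.neg {k : ℤ} {x : ℚ} (hx : V k x) : V k (-x) := by
  unfold V at *
  rwa [padicNorm.neg]

lemma V.sub {k : ℤ} {x y : ℚ} (hx : V k x) (hy : V k y) : V k (x - y) := by
  rw [sub_eq_add_neg]; exact hx.add hy.neg

lemma V.mul {k l : ℤ} {x y : ℚ} (hx : V k x) (hy : V l y) : V (k + l) (x * y) := by
  unfold V at *
  rw [padicNorm.mul, neg_add, zpow_add₀ (by norm_num)]
  exact mul_le_mul hx hy (padicNorm.nonneg _) (by positivity)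

lemma V_sum {ι : Type} (s : Finset ι) (f : ι → ℚ) (k : ℤ) (h : ∀ i ∈ s, V k (f i)) :
    V k (∑ i ∈ s, f i) := by
  classical
  induction s using Finset.induction_on with
  | empty => simpa using V_zero k
  | insert a s ha ih =>
    rw [Finset.sum_insert ha]
    exact (h a (mem_insert_self _ _)).add (ih (fun i hi => h i (mem_insert_of_mem hi)))

lemma V_int (z : ℤ) : V 0 (z : ℚ) := by
  unfold V; simpa using padicNorm.of_int z

lemma V_one : V 0 (1 : ℚ) := by simpa using V_int 1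

lemma V_dvd {k : ℕ} {z : ℤ} (h : (3:ℤ)^k ∣ z) : V k (z : ℚ) := by
  unfold V
  have := (padicNorm.dvd_iff_norm_le (p := 3) (n := k) (z := z)).1 (by exact_mod_cast h)
  exact_mod_cast this

lemma V_int_iff {k : ℕ} {z : ℤ} : V k (z : ℚ) ↔ (3:ℤ)^k ∣ z := by
  unfold V
  have := (padicNorm.dvd_iff_norm_le (p := 3) (n := k) (z := z))
  constructor
  · intro h
    have h2 := this.2 (by exact_mod_cast h)
    exact_mod_cast h2
  · intro h
    have := this.1 (by exact_mod_cast h)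
    exact_mod_cast this

lemma V.pow {k : ℤ} {x : ℚ} (hx : V k x) (n : ℕ) : V (n * k) (x ^ n) := by
  induction n with
  | zero => simpa using V_one
  | succ n ih =>
    rw [pow_succ]
    have := ih.mul hx
    refine this.mono (le_of_eq ?_)
    push_cast; ring

lemma norm_nat (d : ℕ) (hd : d ≠ 0) : padicNorm 3 (d : ℚ) = (3:ℚ)^(-(padicValNat 3 d : ℤ)) := by
  rw [padicNorm.eq_zpow_of_nonzero (by exact_mod_cast hd)]
  simp

lemma V.div_nat {k : ℤ} {x : ℚ} (hx : V k x) (d : ℕ) (hd : d ≠ 0) :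
    V (k - padicValNat 3 d) (x / d) := by
  unfold V at *
  rw [padicNorm.div, norm_nat d hd, div_le_iff₀ (by positivity), ← zpow_add₀ (by norm_num)]
  refine hx.trans (le_of_eq ?_)
  congr 1; ring

lemma V.div_unit {k : ℤ} {x : ℚ} (hx : V k x) (d : ℤ) (hd : ¬ (3 ∣ d)) :
    V k (x / d) := by
  unfold V at *
  rw [padicNorm.div]
  have h1 : padicNorm 3 (d:ℚ) = 1 := by
    have := (padicNorm.int_eq_one_iff (p := 3) d)
    exact this.2 (by exact_mod_cast hd)
  rw [h1, div_one]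
  exact hx

lemma V.of_mul_unit {k : ℤ} {x : ℚ} (d : ℤ) (hd : ¬ (3 ∣ d)) (hx : V k (d * x)) :
    V k x := by
  have := hx.div_unit d hd
  have hd0 : (d:ℚ) ≠ 0 := by
    intro h
    apply hd
    have : d = 0 := by exact_mod_cast h
    simp [this]
  rwa [mul_div_cancel_left₀ _ hd0] at this

lemma V3 : V 1 (3:ℚ) := by
  have := V_dvd (k := 1) (z := 3) (by norm_num)
  exact_mod_cast this

lemma four_r (r : ℕ) (hr : 2 ≤ r) : 4 * r + 1 ≤ 3 ^ r := by
  induction r, hr using Nat.le_induction with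
  | base => norm_num
  | succ r hr ih => rw [pow_succ]; omega

lemma bound2 (r i : ℕ) (hi : 2 ≤ i) (h : 3 ^ r ≤ 2 * i + 1) : 2 * r ≤ i := by
  rcases Nat.lt_or_ge r 2 with h1 | h1
  · interval_cases r <;> omega
  · have := four_r r h1
    omega

lemma bound1 (r : ℕ) (h : 3 ^ r ≤ 3) : r ≤ 1 := by
  by_contra h1
  have := four_r r (by omega)
  omega

lemma bound1' (r : ℕ) (h : 3 ^ r ≤ 2) : r = 0 := by
  by_contra h1
  have : 3 ^ 1 ≤ 3 ^ r := Nat.pow_le_pow_right (by norm_num) (by omega)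
  omega

lemma pow_val_le (d : ℕ) (hd : d ≠ 0) : 3 ^ (padicValNat 3 d) ≤ d :=
  Nat.le_of_dvd (Nat.pos_of_ne_zero hd) pow_padicValNat_dvd

lemma val_le (d : ℕ) (hd : d ≠ 0) (l : ℕ) (h : d < 3^(l+1)) : padicValNat 3 d ≤ l := by
  have h1 := pow_val_le d hd
  have h2 : 3 ^ (padicValNat 3 d) < 3 ^ (l+1) := lt_of_le_of_lt h1 h
  have := (Nat.pow_lt_pow_iff_right (by norm_num)).1 h2
  omega

/-- alternating binomials of q-1 are close to 1 -/
lemma choose_close (k l : ℕ) : ∀ j : ℕ, j < 3^(l+1) →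
    V ((k:ℤ) - l) (1 - (-1)^j * (Nat.choose (3^k-1) j : ℚ)) := by
  intro j
  induction j with
  | zero => intro _; simpa using V_zero _
  | succ j ih =>
    intro hj
    have h1 := ih (by omega)
    have hq : 3^k - 1 + 1 = 3^k := Nat.sub_add_cancel (Nat.one_le_pow _ _ (by norm_num))
    have hp : (Nat.choose (3^k) (j+1) : ℚ) = Nat.choose (3^k-1) j + Nat.choose (3^k-1) (j+1) := by
      conv_lhs => rw [← hq]
      rw [Nat.choose_succ_succ]
      push_cast; ring
    have e : (1 : ℚ) - (-1)^(j+1) * (Nat.choose (3^k-1) (j+1) : ℚ)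
        = (1 - (-1)^j * (Nat.choose (3^k-1) j : ℚ)) - (-1)^(j+1) * (Nat.choose (3^k) (j+1) : ℚ) := by
      rw [hp, pow_succ]; ring
    rw [e]
    apply h1.sub
    have h2 : (Nat.choose (3^k) (j+1) : ℚ) = ((3^k * Nat.choose (3^k-1) j : ℕ) : ℚ) / ((j+1 : ℕ) : ℚ) := by
      have h3 := Nat.add_one_mul_choose_eq (3^k-1) j
      rw [hq] at h3
      rw [h3]
      have : ((j+1 : ℕ) : ℚ) ≠ 0 := by positivity
      rw [Nat.cast_mul]
      field_simp
    rw [h2]
    have h4 : V k ((3^k * Nat.choose (3^k-1) j : ℕ) : ℚ) := by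
      have := V_dvd (k := k) (z := ((3^k * Nat.choose (3^k-1) j : ℕ) : ℤ)) (by
        push_cast
        exact Dvd.intro _ rfl)
      exact_mod_cast this
    have h5 := h4.div_nat (j+1) (by omega)
    have h6 : padicValNat 3 (j+1) ≤ l := val_le (j+1) (by omega) l hj
    have h7 : V 0 ((-1 : ℚ)^(j+1)) := by
      have := V_int ((-1)^(j+1))
      exact_mod_cast this
    have h8 := h7.mul h5
    refine h8.mono ?_
    omega

/-- vanishing of the imaginary part of (1+sqrt(-3))^(3^k) -/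
lemma im_zero (k : ℕ) (hk : 1 ≤ k) (n : ℕ) (hn : 3^k ≤ n) :
    ∑ i ∈ range n, (Nat.choose (3^k) (2*i+1) : ℤ) * (-3)^i = 0 := by
  have hcube : ((1 : ℤ√(-3)) + Zsqrtd.sqrtd)^3 = ((-8 : ℤ) : ℤ√(-3)) := by
    have h2 : (Zsqrtd.sqrtd : ℤ√(-3)) * Zsqrtd.sqrtd = ((-3 : ℤ) : ℤ√(-3)) := Zsqrtd.dmuld
    have : ((1 : ℤ√(-3)) + Zsqrtd.sqrtd)^3 = 1 + 3 * Zsqrtd.sqrtd + 3 * (Zsqrtd.sqrtd * Zsqrtd.sqrtd)
        + (Zsqrtd.sqrtd * Zsqrtd.sqrtd) * Zsqrtd.sqrtd := by ring
    rw [this, h2]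
    push_cast
    ring
  have hpow : ((1 : ℤ√(-3)) + Zsqrtd.sqrtd)^(3^k) = (((-8 : ℤ)^(3^(k-1)) : ℤ) : ℤ√(-3)) := by
    obtain ⟨k', rfl⟩ : ∃ k', k = k' + 1 := ⟨k-1, by omega⟩
    rw [Nat.add_sub_cancel, pow_succ', pow_mul, hcube]
    push_cast
    rfl
  let imHom : ℤ√(-3) →+ ℤ := { toFun := Zsqrtd.im, map_zero' := rfl, map_add' := fun _ _ => rfl }
  have him : imHom (((1 : ℤ√(-3)) + Zsqrtd.sqrtd)^(3^k)) = 0 := by
    rw [hpow]
    change ((((-8 : ℤ)^(3^(k-1)) : ℤ) : ℤ√(-3))).im = 0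
    exact Zsqrtd.im_intCast _
  rw [add_comm, add_pow, map_sum] at him
  have heven : ∀ i : ℕ, (Zsqrtd.sqrtd : ℤ√(-3))^(2*i) = (((-3:ℤ)^i : ℤ) : ℤ√(-3)) := by
    intro i
    rw [pow_mul, pow_two, Zsqrtd.dmuld]
    push_cast; rfl
  have hterm : ∀ j : ℕ, imHom ((Zsqrtd.sqrtd : ℤ√(-3))^j * 1^(3^k - j) * (Nat.choose (3^k) j : ℤ√(-3)))
      = (Nat.choose (3^k) j : ℤ) * ((Zsqrtd.sqrtd : ℤ√(-3))^j).im := by
    intro j
    rw [one_pow, mul_one, mul_comm]
    change (((Nat.choose (3^k) j : ℕ) : ℤ√(-3)) * Zsqrtd.sqrtd^j).im = _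
    rw [Zsqrtd.im_mul]
    simp
  have h1 : ∑ j ∈ range (3^k+1), (Nat.choose (3^k) j : ℤ) * ((Zsqrtd.sqrtd : ℤ√(-3))^j).im = 0 := by
    rw [← him]
    exact Finset.sum_congr rfl (fun j _ => (hterm j).symm)
  have hq1 : 1 ≤ 3^k := Nat.one_le_pow _ _ (by norm_num)
  have h2 : ∑ j ∈ range (2*n), (Nat.choose (3^k) j : ℤ) * ((Zsqrtd.sqrtd : ℤ√(-3))^j).im = 0 := by
    rw [← h1]
    symm
    apply Finset.sum_subset
    · intro x hx
      simp only [Finset.mem_range] at *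
      omega
    · intro x _ hx
      simp only [Finset.mem_range, not_lt] at hx
      rw [Nat.choose_eq_zero_of_lt (by omega)]
      simp
  have h3 : ∀ (f : ℕ → ℤ) (N : ℕ), ∑ j ∈ range (2*N), f j = ∑ i ∈ range N, (f (2*i) + f (2*i+1)) := by
    intro f N
    induction N with
    | zero => simp
    | succ N ih =>
      rw [show 2*(N+1) = 2*N+1+1 by ring, Finset.sum_range_succ, Finset.sum_range_succ, ih,
        Finset.sum_range_succ]
      ring
  rw [h3] at h2
  rw [← h2]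
  apply Finset.sum_congr rfl
  intro i _
  have h5 : ((Zsqrtd.sqrtd : ℤ√(-3))^(2*i)).im = 0 := by
    rw [heven]; exact Zsqrtd.im_intCast _
  have h6 : ((Zsqrtd.sqrtd : ℤ√(-3))^(2*i+1)).im = (-3)^i := by
    rw [pow_succ, heven, Zsqrtd.im_mul, Zsqrtd.re_intCast, Zsqrtd.im_intCast]
    simp
  rw [h5, h6]
  ring

/-- the truncated series of (1/sqrt(-3)) artanh(sqrt(-3)) is 3-adically small -/
lemma tau0 (k n : ℕ) (hn : 3^k ≤ n) : V k (∑ i ∈ range n, (-3:ℚ)^i / ((2*i+1 : ℕ) : ℚ)) := by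
  have hm3 : V 1 (-3 : ℚ) := V3.neg
  rcases Nat.eq_zero_or_pos k with hk | hk
  · subst hk
    apply V_sum
    intro i hi
    have h1 := (hm3.pow i).div_nat (2*i+1) (by omega)
    refine h1.mono ?_
    have h2 := pow_val_le (2*i+1) (by omega)
    set r := padicValNat 3 (2*i+1)
    rcases Nat.lt_or_ge i 2 with h3 | h3
    · interval_cases i
      · have : r = 0 := bound1' r (by omega)
        simp [this]
      · have : r ≤ 1 := bound1 r (by omega)
        simp; omega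
    · have := bound2 r i h3 h2
      omega
  · have hz := im_zero k hk n hn
    have hq1 : 1 ≤ 3^k := Nat.one_le_pow _ _ (by norm_num)
    have hq : 3^k - 1 + 1 = 3^k := Nat.sub_add_cancel hq1
    have hz' : ∑ i ∈ range n, (Nat.choose (3^k-1) (2*i) : ℚ) * ((-3:ℚ)^i / ((2*i+1 : ℕ) : ℚ)) = 0 := by
      have h1 : ((∑ i ∈ range n, (Nat.choose (3^k) (2*i+1) : ℤ) * (-3)^i : ℤ) : ℚ) = 0 := by
        rw [hz]; simp
      push_cast at h1
      have h2 : ∀ i ∈ range n, (Nat.choose (3^k) (2*i+1) : ℚ) * (-3)^i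
          = (3^k : ℚ) * ((Nat.choose (3^k-1) (2*i) : ℚ) * ((-3:ℚ)^i / ((2*i+1 : ℕ) : ℚ))) := by
        intro i _
        have h3 := Nat.add_one_mul_choose_eq (3^k-1) (2*i)
        rw [hq] at h3
        have h4 : (3^k : ℚ) * (Nat.choose (3^k-1) (2*i) : ℚ) = (Nat.choose (3^k) (2*i+1) : ℚ) * ((2*i+1 : ℕ) : ℚ) := by
          exact_mod_cast h3
        have h5 : ((2*i+1 : ℕ) : ℚ) ≠ 0 := by positivity
        field_simp
        linarith [h4]
      rw [Finset.sum_congr rfl h2, ← Finset.mul_sum] at h1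
      have h6 : (3^k : ℚ) ≠ 0 := by positivity
      exact (mul_eq_zero.1 h1).resolve_left h6
    have e : ∑ i ∈ range n, (-3:ℚ)^i / ((2*i+1 : ℕ) : ℚ)
        = ∑ i ∈ range n, (-3:ℚ)^i / ((2*i+1 : ℕ) : ℚ) * (1 - (Nat.choose (3^k-1) (2*i) : ℚ)) := by
      rw [← sub_zero (∑ i ∈ range n, (-3:ℚ)^i / ((2*i+1 : ℕ) : ℚ)), ← hz', ← Finset.sum_sub_distrib]
      apply Finset.sum_congr rfl
      intro i _
      ring
    rw [e]
    apply V_sum
    intro i hi
    rcases Nat.eq_zero_or_pos i with h0 | h0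
    · subst h0
      simpa using V_zero _
    have h1 := (hm3.pow i).div_nat (2*i+1) (by omega)
    set l := Nat.log 3 (2*i) with hl
    have h2 : 2*i < 3^(l+1) := Nat.lt_pow_succ_log_self (by norm_num) _
    have h3 : 3^l ≤ 2*i := Nat.pow_log_le_self 3 (by omega)
    have h4 := choose_close k l (2*i) h2
    rw [pow_mul] at h4
    simp only [even_two, Even.neg_pow, one_pow, one_mul] at h4
    have h5 := h1.mul h4
    refine h5.mono ?_
    have h6 := pow_val_le (2*i+1) (by omega)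
    set r := padicValNat 3 (2*i+1)
    rcases Nat.lt_or_ge i 2 with h7 | h7
    · have hi1 : i = 1 := by omega
      subst hi1
      have : r ≤ 1 := bound1 r (by omega)
      have : l = 0 := bound1' l (by omega)
      omega
    · have := bound2 r i h7 h6
      have := bound2 l i h7 (by omega)
      push_cast; omega

end Pool.Agent.LibThreeAdic
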