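import Mathlib
import Pool.Agent.LibThreeAdic.Val

set_option autoImplicit false

namespace Pool.Agent.LibThreeAdic

open Finset

lemma V_iff (k : ℤ) (x : ℚ) : V k x ↔ (k : WithTop ℤ) ≤ nu3 x := by
  unfold nu3
  split_ifs with h
  · subst h
    simp [V_zero]
  · rw [WithTop.coe_le_coe]
    unfold V
    rw [padicNorm.eq_zpow_of_nonzero h]
    have : ((3:ℕ):ℚ) = 3 := by norm_num
    rw [this, zpow_le_zpow_iff_right₀ (by norm_num)]
    omega

theorem decomposition (m : ℤ) (hm : m ≠ 0) (N : ℕ) :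
    4^N * S m (N+1) / ((N+1 : ℕ) : ℚ) =
      cat N * (∑ i ∈ range (N+1), (1 - 4/(m:ℚ))^i / ((2*i+1 : ℕ) : ℚ)) +
      ∑ i ∈ range (N+1), ∑ b ∈ range i, (1 - 4/(m:ℚ))^i / ((2*i+1 : ℕ) : ℚ) *
        (cb (b+1) * cat (N-(b+1))) := by
  rw [S_eq m hm N, Finset.sum_div, Finset.mul_sum, ← Finset.sum_add_distrib]
  apply Finset.sum_congr rfl
  intro i hi
  have hi' : i ≤ N := by simpa [Nat.lt_succ_iff] using hi
  have h1 := cb_cb i (N-i)
  rw [Nat.add_sub_cancel' hi', Finset.sum_range_succ'] at h1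
  rw [← Finset.mul_sum]
  have h2 : (i:ℚ) + ((N-i : ℕ):ℚ) + 1 = N + 1 := by
    have : ((N-i : ℕ):ℚ) = (N:ℚ) - i := by
      rw [Nat.cast_sub hi']
    rw [this]; ring
  rw [h2, cb_zero, one_mul, Nat.sub_zero] at h1
  have h3 : ((N+1 : ℕ) : ℚ) ≠ 0 := by positivity
  have h4 : ((2*i+1 : ℕ) : ℚ) ≠ 0 := by positivity
  have h5 : ((2*i+1 : ℕ) : ℚ) = 2 * (i:ℚ) + 1 := by push_cast; ring
  have h6 : ((N+1 : ℕ) : ℚ) = (N:ℚ) + 1 := by push_cast; ring
  generalize (1 - 4/(m:ℚ)) = lam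
  field_simp
  rw [h5, h6]
  have : lam ^ i * ((2 * (i:ℚ) + 1) * (cb i * cb (N-i))) =
    lam ^ i * (((N:ℚ) + 1) * (∑ k ∈ range i, cb (k + 1) * cat (N - (k + 1)) + cat N)) := by
    rw [h1]
  linarith [this]

lemma inner (N b : ℕ) (hb : b ≤ N) :
    ∃ K : ℤ, ((b*(2*b+1) : ℕ) : ℚ) * (cb b * cat (N-b)) = ((N+1 : ℕ) : ℚ) * K := by
  have h1 := cb_cb b (N-b)
  rw [Nat.add_sub_cancel' hb] at h1
  have h2 : (b:ℚ) + ((N-b : ℕ):ℚ) + 1 = N + 1 := by
    have : ((N-b : ℕ):ℚ) = (N:ℚ) - b := by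
      rw [Nat.cast_sub hb]
    rw [this]; ring
  rw [h2] at h1
  have h3 : ∃ z : ℤ, ∑ k ∈ range (b+1), cb k * cat (N - k) = z := by
    choose f hf using cb_int
    choose g hg using cat_int
    refine ⟨∑ k ∈ range (b+1), f k * g (N-k), ?_⟩
    push_cast
    exact Finset.sum_congr rfl (fun k _ => by rw [hf, hg])
  obtain ⟨z, hz⟩ := h3
  obtain ⟨x, hx⟩ := cb_int b
  obtain ⟨y, hy⟩ := cat_int (N-b)
  rw [hz] at h1
  refine ⟨(2*b+1)*x*y - z, ?_⟩
  have h4 : cb (N-b) = ((N:ℚ)-b+1) * cat (N-b) := by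
    have h5 : ((N-b : ℕ):ℚ) = (N:ℚ) - b := by
      rw [Nat.cast_sub hb]
    have h6 : ((N-b : ℕ):ℚ) + 1 ≠ 0 := by positivity
    unfold cat
    rw [← h5]
    field_simp
  rw [h4] at h1
  push_cast
  rw [← hx, ← hy]
  linear_combination (-1 : ℚ) * h1

lemma inner_V (N b k : ℕ) (hb1 : 1 ≤ b) (hb : b ≤ N) (hk : 3^k ∣ N+1) :
    ∃ s : ℕ, 3^s ≤ 2*b+1 ∧ V ((k:ℤ) - s) (cb b * cat (N-b)) := by
  obtain ⟨K, hK⟩ := inner N b hb
  have hne : b*(2*b+1) ≠ 0 := by positivity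
  refine ⟨padicValNat 3 (b*(2*b+1)), ?_, ?_⟩
  · have h1 : 3 ^ (padicValNat 3 (b*(2*b+1))) ∣ b*(2*b+1) := pow_padicValNat_dvd
    set s := padicValNat 3 (b*(2*b+1))
    have hcop : Nat.Coprime b (2*b+1) := by
      rw [Nat.coprime_mul_right_add_right]
      exact Nat.coprime_one_right _
    rcases Nat.eq_zero_or_pos s with hs | hs
    · rw [hs]; simp
    by_cases h3 : 3 ∣ b
    · have h4 : Nat.Coprime (3^s) (2*b+1) := by
        apply Nat.Coprime.pow_left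
        exact Nat.Coprime.coprime_dvd_left h3 hcop
      have := Nat.le_of_dvd (by omega) (h4.dvd_of_dvd_mul_right h1)
      omega
    · have h4 : Nat.Coprime (3^s) b := by
        apply Nat.Coprime.pow_left
        exact (Nat.Prime.coprime_iff_not_dvd (by norm_num)).2 h3
      exact Nat.le_of_dvd (by omega) (h4.dvd_of_dvd_mul_left h1)
  · have h1 : V k (((N+1 : ℕ) : ℚ) * K) := by
      have h2 : V k ((N+1 : ℕ) : ℚ) := by
        have := V_dvd (k := k) (z := ((N+1 : ℕ) : ℤ)) (by exact_mod_cast hk)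
        exact_mod_cast this
      have := h2.mul (V_int K)
      simpa using this
    rw [← hK] at h1
    have h2 := h1.div_nat (b*(2*b+1)) hne
    have h3 : (((b*(2*b+1) : ℕ)) : ℚ) ≠ 0 := by exact_mod_cast hne
    rwa [mul_div_cancel_left₀ _ h3] at h2

lemma term_V (N i b k : ℕ) (lam : ℚ) (hlam : V 1 lam) (hb : b < i) (hi : i ≤ N) (hk : 3^k ∣ N+1) :
    V ((k:ℤ) - 1) (lam^i / ((2*i+1 : ℕ) : ℚ) * (cb (b+1) * cat (N-(b+1)))) := by
  obtain ⟨s, hs, hV⟩ := inner_V N (b+1) k (by omega) (by omega) hk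
  have h1 := (hlam.pow i).div_nat (2*i+1) (by omega)
  have h2 := pow_val_le (2*i+1) (by omega)
  have h3 := h1.mul hV
  refine h3.mono ?_
  set r := padicValNat 3 (2*i+1)
  rcases Nat.lt_or_ge i 2 with h4 | h4
  · have hi1 : i = 1 := by omega
    subst hi1
    have := bound1 r (by omega)
    have := bound1 s (by omega)
    omega
  · have := bound2 r i h4 h2
    have := bound2 s i h4 (by omega)
    omega

lemma term_V' (N i b k : ℕ) (lam : ℚ) (hlam : V 1 lam) (hb : b < i) (hi2 : 2 ≤ i) (hi : i ≤ N)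
    (hk : 3^k ∣ N+1) :
    V (k:ℤ) (lam^i / ((2*i+1 : ℕ) : ℚ) * (cb (b+1) * cat (N-(b+1)))) := by
  obtain ⟨s, hs, hV⟩ := inner_V N (b+1) k (by omega) (by omega) hk
  have h1 := (hlam.pow i).div_nat (2*i+1) (by omega)
  have h2 := pow_val_le (2*i+1) (by omega)
  have h3 := h1.mul hV
  refine h3.mono ?_
  set r := padicValNat 3 (2*i+1)
  have := bound2 r i hi2 h2
  have := bound2 s i hi2 (by omega)
  omega

lemma pow_diff (c : ℤ) (x y : ℚ) (hx : V 1 x) (hy : V 1 y) (hxy : V c (x - y)) (i : ℕ) :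
    V (c + i) (x^(i+1) - y^(i+1)) := by
  induction i with
  | zero => simpa using hxy
  | succ i ih =>
    have e : x^(i+1+1) - y^(i+1+1) = x * (x^(i+1) - y^(i+1)) + (x - y) * y^(i+1) := by ring
    rw [e]
    have h1 := hx.mul ih
    have h2 := hxy.mul (hy.pow (i+1))
    refine (h1.mono ?_).add (h2.mono ?_)
    · push_cast; omega
    · push_cast; omega

section
variable (m : ℤ) (hm : m ≡ 1 [ZMOD 3])
include hm

lemma m_not_dvd : ¬ (3 ∣ m) := by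
  intro h
  have := hm.symm.dvd
  omega

lemma m_ne : m ≠ 0 := by
  intro h
  apply m_not_dvd m hm
  simp [h]

lemma lam_V : V 1 (1 - 4/(m:ℚ)) := by
  have h1 : (m:ℚ) ≠ 0 := by exact_mod_cast m_ne m hm
  have e : 1 - 4/(m:ℚ) = ((m - 4 : ℤ) : ℚ) / (m : ℚ) := by
    push_cast; field_simp
  rw [e]
  apply V.div_unit _ _ (m_not_dvd m hm)
  have := V_dvd (k := 1) (z := m - 4) (by
    have := hm.symm.dvd
    omega)
  exact_mod_cast this

lemma lam_diff (c : ℕ) (hc : (3:ℤ)^c ∣ m - 1) : V c ((1 - 4/(m:ℚ)) - (-3)) := by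
  have h1 : (m:ℚ) ≠ 0 := by exact_mod_cast m_ne m hm
  have e : (1 - 4/(m:ℚ)) - (-3) = ((4 * (m - 1) : ℤ) : ℚ) / (m : ℚ) := by
    push_cast; field_simp; ring
  rw [e]
  apply V.div_unit _ _ (m_not_dvd m hm)
  exact V_dvd (Dvd.dvd.mul_left hc 4)

lemma tau_diff (c : ℕ) (hc : (3:ℤ)^c ∣ m - 1) (i : ℕ) :
    V ((c:ℤ) - 1) ((1 - 4/(m:ℚ))^i / ((2*i+1 : ℕ) : ℚ) - (-3)^i / ((2*i+1 : ℕ) : ℚ)) := by
  rcases Nat.eq_zero_or_pos i with h0 | h0
  · subst h0; simpa using V_zero _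
  obtain ⟨j, rfl⟩ : ∃ j, i = j+1 := ⟨i-1, by omega⟩
  have h1 := pow_diff c _ _ (lam_V m hm) (V3.neg) (lam_diff m hm c hc) j
  have h2 := h1.div_nat (2*(j+1)+1) (by omega)
  rw [← sub_div]
  refine h2.mono ?_
  have h3 := pow_val_le (2*(j+1)+1) (by omega)
  set r := padicValNat 3 (2*(j+1)+1)
  rcases Nat.lt_or_ge (j+1) 2 with h4 | h4
  · have hj : j = 0 := by omega
    subst hj
    have := bound1 r (by omega)
    omega
  · have := bound2 r (j+1) h4 h3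
    omega

lemma tau_diff' (c : ℕ) (hc : (3:ℤ)^c ∣ m - 1) (i : ℕ) (hi : 2 ≤ i) :
    V (c:ℤ) ((1 - 4/(m:ℚ))^i / ((2*i+1 : ℕ) : ℚ) - (-3)^i / ((2*i+1 : ℕ) : ℚ)) := by
  obtain ⟨j, rfl⟩ : ∃ j, i = j+1 := ⟨i-1, by omega⟩
  have h1 := pow_diff c _ _ (lam_V m hm) (V3.neg) (lam_diff m hm c hc) j
  have h2 := h1.div_nat (2*(j+1)+1) (by omega)
  rw [← sub_div]
  refine h2.mono ?_
  have h3 := pow_val_le (2*(j+1)+1) (by omega)
  set r := padicValNat 3 (2*(j+1)+1)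
  have := bound2 r (j+1) hi h3
  omega

theorem mainV (n : ℕ) (hn : 0 < n) (k : ℕ) (hk : 3^k ∣ n) (hk' : (3:ℤ)^k ∣ m - 1) :
    V ((k:ℤ) - 1) (S m n / n) := by
  obtain ⟨N, rfl⟩ : ∃ N, n = N+1 := ⟨n-1, by omega⟩
  have h4 : ¬ ((3:ℤ) ∣ 4^N) := by
    intro h
    have : (3:ℤ) ∣ 4 := Int.prime_three.dvd_of_dvd_pow h
    omega
  apply V.of_mul_unit (4^N) h4
  have e : (((4:ℤ)^N : ℤ) : ℚ) * (S m (N+1) / ((N+1 : ℕ) : ℚ)) = 4^N * S m (N+1) / ((N+1 : ℕ) : ℚ) := by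
    push_cast; ring
  rw [e, decomposition m (m_ne m hm) N]
  apply V.add
  · have h1 : V 0 (cat N) := by
      obtain ⟨z, hz⟩ := cat_int N
      rw [hz]; exact V_int z
    have h2 : V ((k:ℤ)-1) (∑ i ∈ range (N+1), (1 - 4/(m:ℚ))^i / ((2*i+1 : ℕ) : ℚ)) := by
      have e2 : ∑ i ∈ range (N+1), (1 - 4/(m:ℚ))^i / ((2*i+1 : ℕ) : ℚ)
        = ∑ i ∈ range (N+1), (-3:ℚ)^i / ((2*i+1 : ℕ) : ℚ) +
          ∑ i ∈ range (N+1), ((1 - 4/(m:ℚ))^i / ((2*i+1 : ℕ) : ℚ) - (-3)^i / ((2*i+1 : ℕ) : ℚ)) := by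
        rw [← Finset.sum_add_distrib]
        apply Finset.sum_congr rfl
        intro i _; ring
      rw [e2]
      apply V.add
      · exact (tau0 k (N+1) (Nat.le_of_dvd (by omega) hk)).mono (by omega)
      · apply V_sum
        intro i _
        exact tau_diff m hm k hk' i
    have := h1.mul h2
    simpa using this
  · apply V_sum
    intro i hi
    apply V_sum
    intro b hb
    simp only [Finset.mem_range] at hi hb
    exact term_V N i b k _ (lam_V m hm) hb (by omega) hk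

end

lemma choose_mod (a : ℕ) : Nat.centralBinom (3^a) ≡ 2 [MOD 3] := by
  induction a with
  | zero => decide
  | succ a ih =>
    rw [Nat.centralBinom_eq_two_mul_choose] at ih ⊢
    have h := Choose.choose_modEq_choose_mod_mul_choose_div_nat (n := 2 * 3^(a+1)) (k := 3^(a+1)) (p := 3)
    have h1 : 2 * 3^(a+1) % 3 = 0 := by rw [pow_succ]; omega
    have h2 : 3^(a+1) % 3 = 0 := by rw [pow_succ]; omega
    have h3 : 2 * 3^(a+1) / 3 = 2 * 3^a := by rw [pow_succ]; omega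
    have h4 : 3^(a+1) / 3 = 3^a := by rw [pow_succ]; omega
    rw [h1, h2, h3, h4] at h
    simp only [Nat.choose_self, one_mul] at h
    exact h.trans ih

lemma cat_mod (a N : ℕ) (ha : 1 ≤ a) (hN : N + 1 = 3^a) : V 1 (cat N + 1) := by
  have h1 : cb (N+1) = 2 * (2*N+1) * cat N := by
    rw [cb_succ']; unfold cat; ring
  have h2 := choose_mod a
  rw [← hN] at h2
  have h3 : (3:ℤ) ∣ (Nat.centralBinom (N+1) : ℤ) - 2 := by
    have := (Nat.modEq_iff_dvd.1 h2.symm)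
    exact_mod_cast this
  have h5 : (3:ℤ) ∣ (N:ℤ) + 1 := by
    have : (3:ℕ) ∣ N + 1 := by rw [hN]; exact dvd_pow_self 3 (by omega)
    exact_mod_cast this
  have h6 : ¬ (3:ℤ) ∣ (2 * (2 * N + 1)) := by omega
  apply V.of_mul_unit (2 * (2*N+1)) h6
  have h7 : (((2 * (2 * N + 1) : ℤ)) : ℚ) * (cat N + 1) =
      (((Nat.centralBinom (N+1) : ℤ) - 2 + 4 * (N+1) : ℤ) : ℚ) := by
    push_cast
    have : cb (N+1) = (Nat.centralBinom (N+1) : ℚ) := rfl
    rw [← this, h1]; ring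
  rw [h7]
  have := V_dvd (k := 1) (z := (Nat.centralBinom (N+1) : ℤ) - 2 + 4 * (N+1)) (by omega)
  exact_mod_cast this

lemma four_pow (N : ℕ) : V 1 (1 - (4:ℚ)^N) := by
  have := V_dvd (k := 1) (z := 1 - 4^N) (by
    have h : (4:ℤ) - 1 ∣ 4^N - 1^N := sub_dvd_pow_sub_pow 4 1 N
    rw [one_pow] at h
    have h' : (3:ℤ) ∣ 4^N - 1 := by simpa using h
    rw [pow_one]
    have := dvd_neg.2 h'
    simpa using this)
  exact_mod_cast this

lemma unit_shift (N : ℕ) (k : ℤ) (x y : ℚ) (hy : V (k-1) y) (h : V k (4^N * x + y)) :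
    V k (x + y) := by
  have h4 : ¬ ((3:ℤ) ∣ 4^N) := by
    intro h
    have : (3:ℤ) ∣ 4 := Int.prime_three.dvd_of_dvd_pow h
    omega
  apply V.of_mul_unit (4^N) h4
  have e : (((4:ℤ)^N : ℤ) : ℚ) * (x + y) = (4^N * x + y) - (1 - (4:ℚ)^N) * y := by
    push_cast; ring
  rw [e]
  apply h.sub
  have := (four_pow N).mul hy
  refine this.mono (by omega)

lemma cat_pred (M : ℕ) : cat M = ((M+2 : ℕ) : ℚ) * cat (M+1) / (2 * (2*M+1)) := by
  unfold cat
  rw [cb_succ']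
  have h1 : (M:ℚ) + 1 ≠ 0 := by positivity
  have h2 : (M:ℚ) + 1 + 1 ≠ 0 := by positivity
  have h3 : 2 * (M:ℚ) + 1 ≠ 0 := by positivity
  push_cast
  field_simp
  ring

theorem mainA (m : ℤ) (hm : m ≡ 1 [ZMOD 3]) (a c : ℕ) (hc : (3:ℤ)^c ∣ m - 1)
    (hac : c < a) (hc1 : 1 ≤ c) :
    V c (S m (3^a) / ((3^a : ℕ) : ℚ) + ((m:ℚ) - 1)/3) := by
  have h9 : 3^2 ≤ 3^a := Nat.pow_le_pow_right (by norm_num) (by omega)
  obtain ⟨M, hM⟩ : ∃ M, 3^a = M+2 := ⟨3^a - 2, by omega⟩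
  have hm0 : (m:ℚ) ≠ 0 := by exact_mod_cast m_ne m hm
  have ht : V ((c:ℤ)-1) (((m:ℚ) - 1)/3) := by
    have h1 := (V_dvd hc).div_nat 3 (by norm_num)
    have h2 : padicValNat 3 3 = 1 := by simp
    rw [h2] at h1
    push_cast at h1
    exact h1
  apply unit_shift (M+1) c _ _ ht
  rw [hM]
  have e : (4:ℚ)^(M+1) * (S m (M+2) / ((M+2 : ℕ) : ℚ)) = 4^(M+1) * S m (M+1+1) / ((M+1+1 : ℕ) : ℚ) := by
    ring
  rw [e, decomposition m (m_ne m hm) (M+1)]
  have hdvd : 3^(c+1) ∣ M+1+1 := by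
    rw [show M+1+1 = 3^a by omega]
    exact pow_dvd_pow 3 (by omega)
  have hrest : V (c:ℤ) (∑ i ∈ range (M+1+1), ∑ b ∈ range i, (1 - 4/(m:ℚ))^i / ((2*i+1 : ℕ) : ℚ) *
        (cb (b+1) * cat (M+1-(b+1)))) := by
    apply V_sum
    intro i hi
    apply V_sum
    intro b hb
    simp only [Finset.mem_range] at hi hb
    have := term_V (M+1) i b (c+1) _ (lam_V m hm) hb (by omega) hdvd
    refine this.mono ?_
    push_cast; omega
  have h1 : V 0 (cat (M+1)) := by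
    obtain ⟨z, hz⟩ := cat_int (M+1)
    rw [hz]; exact V_int z
  have e2 : ∑ i ∈ range (M+1+1), (1 - 4/(m:ℚ))^i / ((2*i+1 : ℕ) : ℚ)
        = ∑ i ∈ range (M+1+1), (-3:ℚ)^i / ((2*i+1 : ℕ) : ℚ) +
          (∑ i ∈ range M, ((1 - 4/(m:ℚ))^(i+1+1) / ((2*(i+1+1)+1 : ℕ) : ℚ)
            - (-3)^(i+1+1) / ((2*(i+1+1)+1 : ℕ) : ℚ)) + 4*((m:ℚ)-1)/(3*m)) := by
    have e3 : ∑ i ∈ range (M+1+1), (1 - 4/(m:ℚ))^i / ((2*i+1 : ℕ) : ℚ)
        = ∑ i ∈ range (M+1+1), (-3:ℚ)^i / ((2*i+1 : ℕ) : ℚ) +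
          ∑ i ∈ range (M+1+1), ((1 - 4/(m:ℚ))^i / ((2*i+1 : ℕ) : ℚ) - (-3)^i / ((2*i+1 : ℕ) : ℚ)) := by
        rw [← Finset.sum_add_distrib]
        apply Finset.sum_congr rfl
        intro i _; ring
    rw [e3]
    congr 1
    rw [Finset.sum_range_succ', Finset.sum_range_succ']
    push_cast
    field_simp
    ring
  rw [e2]
  have htau0 : V (c:ℤ) (∑ i ∈ range (M+1+1), (-3:ℚ)^i / ((2*i+1 : ℕ) : ℚ)) := by
    refine (tau0 a (M+1+1) (by omega)).mono ?_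
    omega
  have hdiff : V (c:ℤ) (∑ i ∈ range M, ((1 - 4/(m:ℚ))^(i+1+1) / ((2*(i+1+1)+1 : ℕ) : ℚ)
            - (-3)^(i+1+1) / ((2*(i+1+1)+1 : ℕ) : ℚ))) := by
    apply V_sum
    intro i _
    exact tau_diff' m hm c hc (i+1+1) (by omega)
  have hcm := cat_mod a (M+1) (by omega) (by omega)
  have hlast : V (c:ℤ) (cat (M+1) * (4*((m:ℚ)-1)/(3*m)) + ((m:ℚ) - 1)/3) := by
    have e4 : cat (M+1) * (4*((m:ℚ)-1)/(3*m)) + ((m:ℚ) - 1)/3
      = (((m:ℚ) - 1)/3) * ((4 * (cat (M+1) + 1) + ((m - 4 : ℤ) : ℚ)) / m) := by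
      push_cast; field_simp; ring
    rw [e4]
    have h5 : V 1 (4 * (cat (M+1) + 1) + ((m - 4 : ℤ) : ℚ)) := by
      apply V.add
      · have h7 : V 0 (4:ℚ) := by exact_mod_cast V_int 4
        have := h7.mul hcm
        simpa using this
      · have := V_dvd (k := 1) (z := m - 4) (by
          have := hm.symm.dvd
          omega)
        exact_mod_cast this
    have h6 := h5.div_unit m (m_not_dvd m hm)
    refine (ht.mul h6).mono (by omega)
  have h8 := h1.mul (htau0.add hdiff)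
  rw [zero_add] at h8
  have h10 := (h8.add hlast).add hrest
  convert h10 using 1
  ring

theorem mainB (a : ℕ) (ha : 2 ≤ a) :
    V (2*a) (S 1 (3^a) + 3^(2*a-1)) := by
  have h9 : 3^2 ≤ 3^a := Nat.pow_le_pow_right (by norm_num) (by omega)
  obtain ⟨M, hM⟩ : ∃ M, 3^a = M+2 := ⟨3^a - 2, by omega⟩
  have hm : (1:ℤ) ≡ 1 [ZMOD 3] := Int.ModEq.refl 1
  have hkey : V a (S 1 (3^a) / ((3^a : ℕ) : ℚ) + 3^(a-1)) := by
    have hy : V ((a:ℤ)-1) ((3:ℚ)^(a-1)) := by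
      have := V3.pow (a-1)
      refine this.mono ?_
      push_cast; omega
    apply unit_shift (M+1) a _ _ hy
    rw [hM]
    have e : (4:ℚ)^(M+1) * (S 1 (M+2) / ((M+2 : ℕ) : ℚ)) = 4^(M+1) * S 1 (M+1+1) / ((M+1+1 : ℕ) : ℚ) := by
      ring
    rw [e, decomposition 1 (by norm_num) (M+1)]
    have hdvd : 3^a ∣ M+1+1 := by
      rw [show M+1+1 = 3^a by omega]
    have h1 : V 0 (cat (M+1)) := by
      obtain ⟨z, hz⟩ := cat_int (M+1)
      rw [hz]; exact V_int z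
    have hl : (1 - 4/((1:ℤ):ℚ)) = -3 := by norm_num
    rw [hl]
    have htau0 : V (a:ℤ) (∑ i ∈ range (M+1+1), (-3:ℚ)^i / ((2*i+1 : ℕ) : ℚ)) := by
      refine (tau0 a (M+1+1) (by omega)).mono ?_
      omega
    generalize (∑ i ∈ range (M+1+1), (-3:ℚ)^i / ((2*i+1 : ℕ) : ℚ)) = tau at htau0 ⊢
    rw [Finset.sum_range_succ' (fun i => ∑ b ∈ range i, (-3:ℚ)^i / ((2*i+1 : ℕ) : ℚ) *
        (cb (b+1) * cat (M+1-(b+1)))), Finset.sum_range_succ']
    have hrest : V (a:ℤ) (∑ i ∈ range M, ∑ b ∈ range (i+1+1), (-3:ℚ)^(i+1+1) / ((2*(i+1+1)+1 : ℕ) : ℚ) *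
        (cb (b+1) * cat (M+1-(b+1)))) := by
      apply V_sum
      intro i hi
      apply V_sum
      intro b hb
      simp only [Finset.mem_range] at hi hb
      exact term_V' (M+1) (i+1+1) b a _ V3.neg hb (by omega) (by omega) hdvd
    have hcm := cat_mod a (M+1) (by omega) (by omega)
    have hmid : V (a:ℤ) ((∑ b ∈ range (0+1), (-3:ℚ)^(0+1) / ((2*(0+1)+1 : ℕ) : ℚ) *
        (cb (b+1) * cat (M+1-(b+1)))) + 3^(a-1)) := by
      have e5 : (∑ b ∈ range (0+1), (-3:ℚ)^(0+1) / ((2*(0+1)+1 : ℕ) : ℚ) *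
        (cb (b+1) * cat (M+1-(b+1)))) = - (2 * cat M) := by
        simp only [zero_add, range_one, sum_singleton, Nat.add_sub_cancel]
        rw [cb_succ' 0, cb_zero]
        push_cast
        ring
      rw [e5, cat_pred]
      have e6 : ((M+2 : ℕ) : ℚ) = 3 * 3^(a-1) := by
        rw [← hM]; push_cast
        rw [← pow_succ']
        congr 1; omega
      have e7 : 2 * (M:ℚ) + 1 = 2 * (3 * 3^(a-1)) - 3 := by
        rw [← e6]; push_cast; ring
      rw [e7, e6]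
      have h10 : ¬ (3:ℤ) ∣ (1 - 2 * 3^(a-1)) := by
        have : (3:ℤ) ∣ 3^(a-1) := dvd_pow_self 3 (by omega)
        omega
      have h10' : (((1 - 2 * 3^(a-1) : ℤ)) : ℚ) ≠ 0 := by
        intro h
        apply h10
        have : (1 - 2 * 3^(a-1) : ℤ) = 0 := by exact_mod_cast h
        rw [this]; simp
      have h11 : (2 * (3 * (3:ℚ)^(a-1)) - 3) ≠ 0 := by
        intro h
        apply h10'
        push_cast
        linarith
      have e8 : -(2 * (3 * (3:ℚ)^(a-1) * cat (M+1) / (2 * (2 * (3 * (3:ℚ)^(a-1)) - 3)))) + 3^(a-1)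
        = 3^(a-1) * (((cat (M+1) + 1) + 3^(a-1) * (-2)) / ((1 - 2 * 3^(a-1) : ℤ) : ℚ)) := by
        have h12 : (2 * (3 * (3:ℚ)^(a-1)) - 3) = -3 * ((1 - 2 * 3^(a-1) : ℤ) : ℚ) := by
          push_cast; ring
        rw [h12]
        push_cast at h10' ⊢
        field_simp
        ring
      rw [e8]
      have h13 : V 1 ((cat (M+1) + 1) + 3^(a-1) * (-2)) := by
        apply hcm.add
        have h14 : V 0 (-2 : ℚ) := by exact_mod_cast V_int (-2)
        refine (hy.mul h14).mono (by omega)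
      exact (hy.mul (h13.div_unit _ h10)).mono (by omega)
    have h8 := h1.mul htau0
    rw [zero_add] at h8
    have h10 := (h8.add hrest).add hmid
    convert h10 using 1
    simp only [range_zero, sum_empty]
    ring
  have h3a : V a ((3^a : ℕ) : ℚ) := by
    have := V3.pow a
    push_cast
    simpa using this
  have h := h3a.mul hkey
  refine V.mono (k := (a:ℤ) + a) ?_ (by omega)
  convert h using 1
  have h0 : ((3^a : ℕ) : ℚ) ≠ 0 := by positivity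
  rw [mul_add, mul_div_cancel₀ _ h0]
  congr 1
  push_cast
  rw [← pow_add]
  congr 1
  omega

end Pool.Agent.LibThreeAdic
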